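import Mathlib

set_option maxHeartbeats 400000

namespace Pool.Agent.H720Z.Non

open MeasureTheory Set Filter Metric
open scoped ENNReal Topology

variable {n : ℕ}

/-- Euclidean space -/
abbrev EE (n : ℕ) := EuclideanSpace ℝ (Fin n)

/-- Hausdorff content -/
noncomputable def cont (n : ℕ) (r : ℝ) : OuterMeasure (EE n) :=
  OuterMeasure.boundedBy fun t => ediam t ^ r

lemma null_of_cont {r : ℝ} (hr : 0 < r) {S : Set (EE n)} (h : cont n r S = 0) :
    μH[r] S = 0 := by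
  rw [Measure.hausdorffMeasure_apply, ← nonpos_iff_eq_zero]
  refine iSup₂_le fun ρ hρ => ?_
  refine ENNReal.le_of_forall_pos_le_add fun ε hε _ => ?_
  have hpos : (0 : ℝ≥0∞) < min (ε : ℝ≥0∞) (ρ ^ r) :=
    lt_min (by exact_mod_cast hε) (ENNReal.rpow_pos_of_nonneg hρ hr.le)
  rw [← h, cont, OuterMeasure.boundedBy_apply] at hpos
  simp only [iInf_lt_iff] at hpos
  obtain ⟨t, ht, hlt⟩ := hpos
  refine iInf_le_of_le t (iInf_le_of_le ht (iInf_le_of_le ?_ ?_))
  · intro i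
    rcases (t i).eq_empty_or_nonempty with he | he
    · simp [he]
    · have h1 : ediam (t i) ^ r ≤ ∑' k, ⨆ _ : (t k).Nonempty, ediam (t k) ^ r := by
        refine le_trans ?_ (ENNReal.le_tsum i)
        exact le_iSup (fun _ : (t i).Nonempty => ediam (t i) ^ r) he
      have h2 := lt_of_le_of_lt h1 (lt_of_lt_of_le hlt (min_le_right _ _))
      exact ((ENNReal.rpow_lt_rpow_iff hr).1 h2).le
  · rw [zero_add]
    exact (lt_of_lt_of_le hlt (min_le_left _ _)).le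

lemma cont_le (r : ℝ) (S : Set (EE n)) : cont n r S ≤ μH[r] S := by
  rw [Measure.hausdorffMeasure_apply, cont, OuterMeasure.boundedBy_apply]
  refine le_iSup₂_of_le 1 one_pos ?_
  refine le_iInf fun t => le_iInf fun ht => le_iInf fun _ => ?_
  exact iInf_le_of_le t (iInf_le_of_le ht le_rfl)

lemma cover {s : ℝ} (hs : 0 < s) {Y : Set (EE n)} (h : μH[s] Y = 0) :
    ∃ (t : ℕ × ℕ → Set (EE n)) (m : ℕ × ℕ → ℕ),
      (∀ q, ∀ y ∈ t q, ∀ y' ∈ t q, dist y y' ≤ (1 / 2 : ℝ) ^ m q) ∧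
      (∀ F : Finset (ℕ × ℕ), ∑ q ∈ F, (((1 / 2 : ℝ) ^ s) ^ (m q + 1)) ≤ 4) ∧
      ∀ y ∈ Y, ∀ M : ℕ, ∃ q, y ∈ t q ∧ M ≤ m q := by
  have hc : cont n s Y = 0 := le_antisymm (h ▸ cont_le s Y) (zero_le)
  have hex : ∀ j : ℕ, ∃ t : ℕ → Set (EE n), Y ⊆ iUnion t ∧
      ∑' k, ⨆ _ : (t k).Nonempty, ediam (t k) ^ s < ENNReal.ofReal ((1 / 2 : ℝ) ^ (j + 1)) := by
    intro j
    have hpos : (0 : ℝ≥0∞) < ENNReal.ofReal ((1 / 2 : ℝ) ^ (j + 1)) :=
      ENNReal.ofReal_pos.2 (by positivity)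
    rw [← hc, cont, OuterMeasure.boundedBy_apply] at hpos
    simp only [iInf_lt_iff] at hpos
    obtain ⟨t, ht, hlt⟩ := hpos
    exact ⟨t, ht, hlt⟩
  choose t ht hlt using hex
  let a : ℕ → ℕ → ℝ≥0∞ := fun j k => ⨆ _ : (t j k).Nonempty, ediam (t j k) ^ s
  have ha_le : ∀ j k, a j k ≤ ENNReal.ofReal ((1 / 2 : ℝ) ^ (j + 1)) := fun j k =>
    (ENNReal.le_tsum k).trans (hlt j).le
  have ha_top : ∀ j k, a j k ≠ ⊤ := fun j k => ne_top_of_le_ne_top ENNReal.ofReal_ne_top (ha_le j k)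
  let w : ℕ × ℕ → ℝ := fun q => (a q.1 q.2).toReal + (1 / 2 : ℝ) ^ (q.1 + 1) * (1 / 2) ^ q.2
  have hw0 : ∀ q, 0 < w q := fun q => by
    have := ENNReal.toReal_nonneg (a := a q.1 q.2)
    simp only [w]; positivity
  have hw1 : ∀ q, w q ≤ (1 / 2 : ℝ) ^ q.1 := fun q => by
    have h1 : (a q.1 q.2).toReal ≤ (1 / 2 : ℝ) ^ (q.1 + 1) :=
      ENNReal.toReal_le_of_le_ofReal (by positivity) (ha_le _ _)
    have h2 : (1 / 2 : ℝ) ^ q.2 ≤ 1 := pow_le_one₀ (by norm_num) (by norm_num)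
    have h3 : (1 / 2 : ℝ) ^ (q.1 + 1) * (1 / 2) ^ q.2 ≤ (1 / 2 : ℝ) ^ (q.1 + 1) :=
      mul_le_of_le_one_right (by positivity) h2
    have h4 : (1 / 2 : ℝ) ^ (q.1 + 1) = (1 / 2) ^ q.1 / 2 := by ring
    simp only [w]
    linarith
  set θ : ℝ := (1 / 2 : ℝ) ^ s with hθ
  have hθ0 : 0 < θ := Real.rpow_pos_of_pos (by norm_num) _
  have hθ1 : θ < 1 := Real.rpow_lt_one (by norm_num) (by norm_num) hs
  have hm : ∀ q, ∃ m : ℕ, θ ^ (m + 1) < w q ∧ w q ≤ θ ^ m := fun q =>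
    exists_nat_pow_near_of_lt_one (hw0 q)
      ((hw1 q).trans (pow_le_one₀ (by norm_num) (by norm_num))) hθ0 hθ1
  choose m hm1 hm2 using hm
  refine ⟨fun q => t q.1 q.2, m, ?_, ?_, ?_⟩
  · intro q y hy y' hy'
    have h1 : edist y y' ^ s ≤ a q.1 q.2 := by
      refine le_trans ?_ (le_iSup (fun _ : (t q.1 q.2).Nonempty => ediam (t q.1 q.2) ^ s) ⟨y, hy⟩)
      exact ENNReal.rpow_le_rpow (edist_le_ediam_of_mem hy hy') hs.le
    have h2 : dist y y' ^ s ≤ (a q.1 q.2).toReal := by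
      have := ENNReal.toReal_mono (ha_top _ _) h1
      rwa [← ENNReal.toReal_rpow, ← dist_edist] at this
    have h3 : (a q.1 q.2).toReal ≤ w q := by
      simp only [w]
      have : (0 : ℝ) ≤ (1 / 2 : ℝ) ^ (q.1 + 1) * (1 / 2) ^ q.2 := by positivity
      linarith
    have h4 : θ ^ m q = ((1 / 2 : ℝ) ^ m q) ^ s := by
      rw [hθ, ← Real.rpow_natCast, ← Real.rpow_natCast, ← Real.rpow_mul (by norm_num),
        ← Real.rpow_mul (by norm_num), mul_comm]
    have h5 := (h2.trans h3).trans (hm2 q)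
    rw [h4] at h5
    exact (Real.rpow_le_rpow_iff dist_nonneg (by positivity) hs).1 h5
  · intro F
    obtain ⟨K, hK⟩ : ∃ K, F ⊆ Finset.range K ×ˢ Finset.range K := by
      refine ⟨F.sup (fun q => max q.1 q.2) + 1, fun q hq => ?_⟩
      have := Finset.le_sup (f := fun q : ℕ × ℕ => max q.1 q.2) hq
      simp only [Finset.mem_product, Finset.mem_range]
      constructor <;> omega
    calc ∑ q ∈ F, θ ^ (m q + 1) ≤ ∑ q ∈ F, w q := Finset.sum_le_sum fun q _ => (hm1 q).le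
      _ ≤ ∑ q ∈ Finset.range K ×ˢ Finset.range K, w q :=
          Finset.sum_le_sum_of_subset_of_nonneg hK fun q _ _ => (hw0 q).le
      _ = ∑ j ∈ Finset.range K, ∑ k ∈ Finset.range K, w (j, k) := Finset.sum_product _ _ _
      _ ≤ ∑ j ∈ Finset.range K, 2 * (1 / 2 : ℝ) ^ j := by
          refine Finset.sum_le_sum fun j _ => ?_
          simp only [w]
          rw [Finset.sum_add_distrib, ← Finset.mul_sum]
          have h1 : ∑ k ∈ Finset.range K, (a j k).toReal ≤ (1 / 2 : ℝ) ^ (j + 1) := by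
            rw [← ENNReal.toReal_sum (fun k _ => ha_top j k)]
            exact ENNReal.toReal_le_of_le_ofReal (by positivity)
              ((ENNReal.sum_le_tsum _).trans (hlt j).le)
          have h2 : ∑ k ∈ Finset.range K, (1 / 2 : ℝ) ^ k ≤ 2 := sum_geometric_two_le K
          have h3 : (1 / 2 : ℝ) ^ (j + 1) * ∑ k ∈ Finset.range K, (1 / 2 : ℝ) ^ k ≤
              (1 / 2 : ℝ) ^ (j + 1) * 2 := mul_le_mul_of_nonneg_left h2 (by positivity)
          have h4 : (1 / 2 : ℝ) ^ (j + 1) = (1 / 2) ^ j / 2 := by ring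
          have h5 : (0 : ℝ) < (1 / 2) ^ j := by positivity
          linarith
      _ ≤ 4 := by
          rw [← Finset.mul_sum]
          have h2 : ∑ k ∈ Finset.range K, (1 / 2 : ℝ) ^ k ≤ 2 := sum_geometric_two_le K
          linarith
  · intro y hy M
    obtain ⟨j, hj⟩ := exists_pow_lt_of_lt_one (pow_pos hθ0 M) (show (1 / 2 : ℝ) < 1 by norm_num)
    obtain ⟨k, hk⟩ := mem_iUnion.1 (ht j hy)
    refine ⟨(j, k), hk, ?_⟩
    have h1 : θ ^ (m (j, k) + 1) < θ ^ M := (hm1 (j, k)).trans ((hw1 (j, k)).trans_lt hj)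
    have := (pow_lt_pow_iff_right_of_lt_one₀ hθ0 hθ1).1 h1
    omega

/-- index of the dyadic cube of level `A` containing the fractional part of `x` -/
noncomputable def idx (A : ℕ) (x : EE n) : Fin n → Fin (2 ^ A) := fun i =>
  ⟨⌊2 ^ A * Int.fract (x i)⌋₊, by
    rw [Nat.floor_lt (mul_nonneg (by positivity) (Int.fract_nonneg _))]
    push_cast
    exact mul_lt_of_lt_one_right (by positivity) (Int.fract_lt_one _)⟩

/-- unit cube with corner `a` -/
def cube (a : Fin n → ℤ) : Set (EE n) := {x | ∀ i, ⌊x i⌋ = a i}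

lemma dist_idx {a : Fin n → ℤ} {A : ℕ} {x y : EE n} (hx : x ∈ cube a) (hy : y ∈ cube a)
    (h : idx A x = idx A y) : dist x y ≤ n * (1 / 2 : ℝ) ^ A := by
  have hi : ∀ i, dist (x i) (y i) ≤ (1 / 2 : ℝ) ^ A := by
    intro i
    have h1 : ⌊2 ^ A * Int.fract (x i)⌋₊ = ⌊2 ^ A * Int.fract (y i)⌋₊ :=
      congrArg Fin.val (congrFun h i)
    have h2 := Nat.floor_le (mul_nonneg (by positivity : (0 : ℝ) ≤ 2 ^ A) (Int.fract_nonneg (x i)))
    have h3 := Nat.floor_le (mul_nonneg (by positivity : (0 : ℝ) ≤ 2 ^ A) (Int.fract_nonneg (y i)))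
    have h4 := Nat.lt_floor_add_one (2 ^ A * Int.fract (x i))
    have h5 := Nat.lt_floor_add_one (2 ^ A * Int.fract (y i))
    rw [h1] at h2 h4
    have h6 : x i - y i = Int.fract (x i) - Int.fract (y i) := by
      unfold Int.fract
      rw [hx i, hy i]; ring
    have h7 : (0 : ℝ) < 2 ^ A := by positivity
    rw [Real.dist_eq, h6, one_div, inv_pow, ← one_div, le_div_iff₀ h7, ← abs_of_pos h7, ← abs_mul,
      abs_le]
    constructor <;> nlinarith
  rw [EuclideanSpace.dist_eq]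
  apply Real.sqrt_le_iff.2
  refine ⟨by positivity, ?_⟩
  calc ∑ i, dist (x i) (y i) ^ 2 ≤ ∑ _i : Fin n, ((1 / 2 : ℝ) ^ A) ^ 2 :=
        Finset.sum_le_sum fun i _ => pow_le_pow_left₀ dist_nonneg (hi i) 2
    _ = n * ((1 / 2 : ℝ) ^ A) ^ 2 := by simp
    _ ≤ (n : ℝ) ^ 2 * ((1 / 2 : ℝ) ^ A) ^ 2 := by
        apply mul_le_mul_of_nonneg_right _ (by positivity)
        exact_mod_cast Nat.le_self_pow two_ne_zero n
    _ = _ := by ring

lemma small {r : ℝ} (hr : 0 < r) (a : Fin n → ℤ) (A : ℕ → ℕ)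
    (F : ∀ k, Finset (Fin n → Fin (2 ^ A k))) (C : ℝ)
    (h : ∀ k, ((F k).card : ℝ) * ((1 / 2 : ℝ) ^ r) ^ A k ≤ C * (1 / 2) ^ k) :
    cont n r {x | ∃ᶠ k in atTop, x ∈ cube a ∧ idx (A k) x ∈ F k} = 0 := by
  apply measure_setOfPred_frequently_eq_zero (μ := cont n r)
    (p := fun k x => x ∈ cube a ∧ idx (A k) x ∈ F k)
  have hb : ∀ k, cont n r {x | x ∈ cube a ∧ idx (A k) x ∈ F k} ≤
      ENNReal.ofReal ((n : ℝ) ^ r * C * (1 / 2) ^ k) := by
    intro k
    have h1 : {x | x ∈ cube a ∧ idx (A k) x ∈ F k} ⊆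
        ⋃ l ∈ F k, {x : EE n | x ∈ cube a ∧ idx (A k) x = l} := by
      intro x hx
      simp only [mem_iUnion]
      exact ⟨_, hx.2, hx.1, rfl⟩
    refine (measure_mono h1).trans ((measure_biUnion_finset_le _ _).trans ?_)
    have h2 : ∀ l ∈ F k, cont n r {x : EE n | x ∈ cube a ∧ idx (A k) x = l} ≤
        ENNReal.ofReal ((n : ℝ) ^ r * ((1 / 2 : ℝ) ^ r) ^ A k) := by
      intro l _
      refine (OuterMeasure.boundedBy_le _).trans ?_
      have h3 : ediam {x : EE n | x ∈ cube a ∧ idx (A k) x = l} ≤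
          ENNReal.ofReal (n * (1 / 2 : ℝ) ^ A k) := by
        apply ediam_le_of_forall_dist_le
        intro x hx y hy
        exact dist_idx hx.1 hy.1 (hx.2.trans hy.2.symm)
      refine (ENNReal.rpow_le_rpow h3 hr.le).trans (le_of_eq ?_)
      rw [ENNReal.ofReal_rpow_of_nonneg (by positivity) hr.le,
        Real.mul_rpow (by positivity) (by positivity)]
      congr 2
      rw [← Real.rpow_natCast, ← Real.rpow_natCast, ← Real.rpow_mul (by norm_num),
        ← Real.rpow_mul (by norm_num), mul_comm]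
    refine (Finset.sum_le_sum h2).trans ?_
    rw [Finset.sum_const, nsmul_eq_mul, ← ENNReal.ofReal_natCast,
      ← ENNReal.ofReal_mul (by positivity)]
    apply ENNReal.ofReal_le_ofReal
    have h4 : (0 : ℝ) ≤ (n : ℝ) ^ r := by positivity
    have := mul_le_mul_of_nonneg_left (h k) h4
    linarith
  refine ne_top_of_le_ne_top ?_ (ENNReal.tsum_le_tsum hb)
  have hC : 0 ≤ C := by
    have := h 0
    have h2 : (0 : ℝ) ≤ ((F 0).card : ℝ) * ((1 / 2 : ℝ) ^ r) ^ A 0 := by positivity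
    simp only [pow_zero, mul_one] at this
    linarith
  rw [← ENNReal.ofReal_tsum_of_nonneg (fun k => by positivity)
    (summable_geometric_two.mul_left _)]
  exact ENNReal.ofReal_ne_top

end Pool.Agent.H720Z.Non
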