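import Mathlib

namespace Pool.Agent.H720Z.Non

open MeasureTheory

/-- The ideal `N^t_n` of subsets of `ℝ^n` of `t`-dimensional Hausdorff (outer) measure zero. -/
def nullIdeal (n : ℕ) (t : ℝ) : Set (Set (EuclideanSpace ℝ (Fin n))) := {A | μH[t] A = 0}

/-- The uniformity number `non(I)`: the least cardinality of a set that is not in `I`. -/
noncomputable def non {α : Type} (I : Set (Set α)) : Cardinal :=
  sInf {c : Cardinal | ∃ X : Set α, X ∉ I ∧ Cardinal.mk X = c}

end Pool.Agent.H720Z.Non
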