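import Pool.Agent.H720Z.Non.Samp
import Pool.Agent.H720Z.Non.Cover

set_option maxHeartbeats 400000

namespace Pool.Agent.H720Z.Non

open MeasureTheory Set Filter Metric
open scoped ENNReal Topology

/-- integer partial sums -/
def NN (d v : ℕ → ℕ) : ℕ → ℕ
  | 0 => 0
  | k + 1 => NN d v k * 2 ^ d k + v k

lemma exists_lim (e d v : ℕ → ℕ) (he : ∀ k, e (k + 1) = e k + d k) (hv : ∀ k, v k < 2 ^ d k) :
    ∃ y : ℝ, ∀ k, |y * 2 ^ e k - NN d v k| ≤ 1 := by
  let a : ℕ → ℝ := fun k => NN d v k / 2 ^ e k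
  let b : ℕ → ℝ := fun k => (NN d v k + 1) / 2 ^ e k
  have ha : Monotone a := by
    apply monotone_nat_of_le_succ
    intro k
    simp only [a, NN, he]
    rw [div_le_div_iff₀ (by positivity) (by positivity)]
    push_cast
    rw [pow_add]
    have : (0 : ℝ) ≤ (v k : ℝ) * 2 ^ e k := by positivity
    nlinarith
  have hb : Antitone b := by
    apply antitone_nat_of_succ_le
    intro k
    simp only [b, NN, he]
    rw [div_le_div_iff₀ (by positivity) (by positivity)]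
    push_cast
    rw [pow_add]
    have h1 : (v k : ℝ) + 1 ≤ 2 ^ d k := by exact_mod_cast hv k
    have h2 : (0 : ℝ) < 2 ^ e k := by positivity
    nlinarith
  have hab : ∀ k, a k ≤ b k := fun k => by
    simp only [a, b]
    gcongr
    linarith
  have hab' : ∀ j k, a j ≤ b k := fun j k =>
    (ha (le_max_left j k)).trans ((hab _).trans (hb (le_max_right j k)))
  have hbdd : BddAbove (range a) := ⟨b 0, by rintro _ ⟨j, rfl⟩; exact hab' j 0⟩
  refine ⟨⨆ j, a j, fun k => ?_⟩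
  have h1 : a k ≤ ⨆ j, a j := le_ciSup hbdd k
  have h2 : ⨆ j, a j ≤ b k := ciSup_le fun j => hab' j k
  simp only [a, b] at h1 h2 ⊢
  rw [div_le_iff₀ (by positivity)] at h1
  rw [le_div_iff₀ (by positivity)] at h2
  rw [abs_le]
  constructor <;> linarith

variable {n : ℕ}

open Classical in
/-- pairs of blocks compatible with a point of `t` -/
noncomputable def Sq (d d' e : ℕ) (t : Set (EE n)) :
    Finset ((Fin n → Fin (2 ^ d)) × (Fin n → Fin (2 ^ d'))) :=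
  Finset.univ.filter fun p => ∃ y ∈ t, ∃ a : Fin n → ℕ, ∀ i,
    |y i * 2 ^ e - (((a i * 2 ^ d + (p.1 i).val) * 2 ^ d' + (p.2 i).val : ℕ) : ℝ)| ≤ 1

lemma mem_Sq {d d' e : ℕ} {t : Set (EE n)}
    {p : (Fin n → Fin (2 ^ d)) × (Fin n → Fin (2 ^ d'))} : p ∈ Sq d d' e t ↔
    ∃ y ∈ t, ∃ a : Fin n → ℕ, ∀ i,
    |y i * 2 ^ e - (((a i * 2 ^ d + (p.1 i).val) * 2 ^ d' + (p.2 i).val : ℕ) : ℝ)| ≤ 1 := by
  unfold Sq
  simp only [Finset.mem_filter, Finset.mem_univ, true_and]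

lemma card_Sq (d d' e m : ℕ) (hm : m ≤ e) (t : Set (EE n))
    (ht : ∀ y ∈ t, ∀ y' ∈ t, dist y y' ≤ (1 / 2 : ℝ) ^ m) :
    (Sq d d' e t).card ≤ 2 ^ (n * (e - m + 3)) := by
  classical
  rcases t.eq_empty_or_nonempty with rfl | ⟨y0, hy0⟩
  · have : Sq (n := n) d d' e ∅ = ∅ := by
      rw [Finset.eq_empty_iff_forall_notMem]
      intro p hp
      obtain ⟨y, hy, _⟩ := mem_Sq.1 hp
      exact hy
    rw [this]; simp
  set D : ℕ := 2 ^ (e - m) with hD
  have hD1 : 1 ≤ D := Nat.one_le_two_pow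
  have hDr : (1 / 2 : ℝ) ^ m * 2 ^ e = D := by
    rw [hD]
    push_cast
    have : (2 : ℝ) ^ e = 2 ^ m * 2 ^ (e - m) := by rw [← pow_add]; congr 1; omega
    rw [this, ← mul_assoc, ← mul_pow]; norm_num
  let lo : Fin n → ℕ := fun i => ⌊y0 i * 2 ^ e - D - 1⌋₊
  let box : Finset (Fin n → ℕ) := Fintype.piFinset fun i => Finset.Icc (lo i) (lo i + 2 * D + 2)
  let dec : (Fin n → ℕ) → (Fin n → Fin (2 ^ d)) × (Fin n → Fin (2 ^ d')) := fun N =>
    (fun i => ⟨N i / 2 ^ d' % 2 ^ d, Nat.mod_lt _ (by positivity)⟩,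
      fun i => ⟨N i % 2 ^ d', Nat.mod_lt _ (by positivity)⟩)
  have hsub : Sq d d' e t ⊆ box.image dec := by
    intro p hp
    obtain ⟨y, hy, a, ha⟩ := mem_Sq.1 hp
    refine Finset.mem_image.2 ⟨fun i => (a i * 2 ^ d + (p.1 i).val) * 2 ^ d' + (p.2 i).val, ?_, ?_⟩
    · rw [Fintype.mem_piFinset]
      intro i
      have h1 := abs_le.1 (ha i)
      have h2 : |y i - y0 i| ≤ (1 / 2 : ℝ) ^ m := by
        rw [← Real.dist_eq]
        exact (PiLp.dist_apply_le y y0 i).trans (ht y hy y0 hy0)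
      have h3 : |y i * 2 ^ e - y0 i * 2 ^ e| ≤ D := by
        rw [← sub_mul, abs_mul, abs_of_pos (by positivity : (0 : ℝ) < 2 ^ e), ← hDr]
        exact mul_le_mul_of_nonneg_right h2 (by positivity)
      have h4 := abs_le.1 h3
      generalize (a i * 2 ^ d + (p.1 i).val) * 2 ^ d' + (p.2 i).val = N at h1 ⊢
      rw [Finset.mem_Icc]
      constructor
      · exact Nat.floor_le_of_le (by linarith)
      · have h5 := Nat.lt_floor_add_one (y0 i * 2 ^ e - D - 1)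
        have h6 : (N : ℝ) < (lo i : ℝ) + 2 * D + 2 + 1 := by
          simp only [lo]; linarith
        have h7 : N < lo i + 2 * D + 2 + 1 := by exact_mod_cast h6
        omega
    · refine Prod.ext (funext fun i => Fin.ext ?_) (funext fun i => Fin.ext ?_)
      · simp only [dec]
        rw [Nat.add_comm, Nat.add_mul_div_right _ _ (by positivity),
          Nat.div_eq_of_lt (p.2 i).2, Nat.zero_add, Nat.add_comm, Nat.add_mul_mod_self_right,
          Nat.mod_eq_of_lt (p.1 i).2]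
      · simp only [dec]
        rw [Nat.add_comm, Nat.add_mul_mod_self_right, Nat.mod_eq_of_lt (p.2 i).2]
  refine (Finset.card_le_card hsub).trans (Finset.card_image_le.trans ?_)
  rw [Fintype.card_piFinset]
  calc ∏ i : Fin n, (Finset.Icc (lo i) (lo i + 2 * D + 2)).card ≤ ∏ _i : Fin n, 2 ^ (e - m + 3) := by
        refine Finset.prod_le_prod' fun i _ => ?_
        rw [Nat.card_Icc, pow_add, ← hD]
        omega
    _ = _ := by rw [Finset.prod_const, ← pow_mul, mul_comm]; simp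

open Classical in
/-- pairs of blocks compatible with a cover set of level in `[b, e]` -/
noncomputable def Sk (d d' b e : ℕ) (t : ℕ × ℕ → Set (EE n)) (m : ℕ × ℕ → ℕ) :
    Finset ((Fin n → Fin (2 ^ d)) × (Fin n → Fin (2 ^ d'))) :=
  Finset.univ.filter fun p => ∃ q, b ≤ m q ∧ m q ≤ e ∧ p ∈ Sq d d' e (t q)

lemma mem_Sk {d d' b e : ℕ} {t : ℕ × ℕ → Set (EE n)} {m : ℕ × ℕ → ℕ}
    {p : (Fin n → Fin (2 ^ d)) × (Fin n → Fin (2 ^ d'))} : p ∈ Sk d d' b e t m ↔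
    ∃ q, b ≤ m q ∧ m q ≤ e ∧ p ∈ Sq d d' e (t q) := by
  unfold Sk
  simp only [Finset.mem_filter, Finset.mem_univ, true_and]

lemma card_Sk (d d' b e c j : ℕ) (t : ℕ × ℕ → Set (EE n)) (m : ℕ × ℕ → ℕ) {θ η : ℝ}
    (hθ : 0 < θ) (hη0 : 0 < η) (hη1 : η ≤ 1) (hηc : η ^ c ≤ 1 / 2) (hθη : θ * η = (1 / 2) ^ n)
    (hj : c * j ≤ b)
    (ht : ∀ q, ∀ y ∈ t q, ∀ y' ∈ t q, dist y y' ≤ (1 / 2 : ℝ) ^ m q)
    (hsum : ∀ F : Finset (ℕ × ℕ), ∑ q ∈ F, θ ^ (m q + 1) ≤ 4) :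
    (Sk d d' b e t m).card * 2 ^ j ≤ 2 ^ (n * (e + 4) + 2) := by
  classical
  have hch : ∀ p ∈ Sk d d' b e t m, ∃ q, b ≤ m q ∧ m q ≤ e ∧ p ∈ Sq d d' e (t q) :=
    fun p hp => mem_Sk.1 hp
  choose! τ hτ using hch
  set F := (Sk d d' b e t m).image τ with hF
  have hsub : Sk d d' b e t m ⊆ F.biUnion fun q => Sq d d' e (t q) := fun p hp =>
    Finset.mem_biUnion.2 ⟨τ p, Finset.mem_image_of_mem _ hp, (hτ p hp).2.2⟩
  have h1 := (Finset.card_le_card hsub).trans Finset.card_biUnion_le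
  have h2 : ∀ q ∈ F, ((Sq d d' e (t q)).card : ℝ) * 2 ^ j ≤ 2 ^ (n * (e + 4)) * θ ^ (m q + 1) := by
    intro q hq
    obtain ⟨p, hp, rfl⟩ := Finset.mem_image.1 hq
    obtain ⟨hb, he, _⟩ := hτ p hp
    set M := m (τ p) with hM
    have h3 : ((Sq d d' e (t (τ p))).card : ℝ) ≤ 2 ^ (n * (e - M + 3)) := by
      exact_mod_cast card_Sq d d' e M he _ (ht _)
    have h4 : η ^ (M + 1) * 2 ^ j ≤ 1 := by
      have h5 : η ^ (M + 1) ≤ η ^ (c * j) := pow_le_pow_of_le_one hη0.le hη1 (by omega)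
      have h6 : η ^ (c * j) ≤ (1 / 2) ^ j := by
        rw [pow_mul]; exact pow_le_pow_left₀ (by positivity) hηc j
      calc η ^ (M + 1) * 2 ^ j ≤ (1 / 2) ^ j * 2 ^ j :=
            mul_le_mul_of_nonneg_right (h5.trans h6) (by positivity)
        _ = 1 := by rw [← mul_pow]; norm_num
    have h7 : (2 : ℝ) ^ (n * (e - M + 3)) = 2 ^ (n * (e + 4)) * (θ ^ (M + 1) * η ^ (M + 1)) := by
      rw [← mul_pow, hθη, ← pow_mul]
      have : n * (e + 4) = n * (e - M + 3) + n * (M + 1) := by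
        rw [← mul_add]; congr 1; omega
      rw [this, pow_add, mul_assoc, ← mul_pow]; norm_num
    calc ((Sq d d' e (t (τ p))).card : ℝ) * 2 ^ j ≤ 2 ^ (n * (e - M + 3)) * 2 ^ j :=
          mul_le_mul_of_nonneg_right h3 (by positivity)
      _ = 2 ^ (n * (e + 4)) * θ ^ (M + 1) * (η ^ (M + 1) * 2 ^ j) := by rw [h7]; ring
      _ ≤ 2 ^ (n * (e + 4)) * θ ^ (M + 1) * 1 :=
          mul_le_mul_of_nonneg_left h4 (by positivity)
      _ = _ := by ring
  have h8 : ((Sk d d' b e t m).card : ℝ) * 2 ^ j ≤ 2 ^ (n * (e + 4) + 2) := by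
    have h9 : ((Sk d d' b e t m).card : ℝ) ≤ ∑ q ∈ F, ((Sq d d' e (t q)).card : ℝ) := by
      exact_mod_cast h1
    calc ((Sk d d' b e t m).card : ℝ) * 2 ^ j
        ≤ (∑ q ∈ F, ((Sq d d' e (t q)).card : ℝ)) * 2 ^ j :=
          mul_le_mul_of_nonneg_right h9 (by positivity)
      _ = ∑ q ∈ F, ((Sq d d' e (t q)).card : ℝ) * 2 ^ j := Finset.sum_mul _ _ _
      _ ≤ ∑ q ∈ F, 2 ^ (n * (e + 4)) * θ ^ (m q + 1) := Finset.sum_le_sum h2
      _ = 2 ^ (n * (e + 4)) * ∑ q ∈ F, θ ^ (m q + 1) := by rw [Finset.mul_sum]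
      _ ≤ 2 ^ (n * (e + 4)) * 4 := mul_le_mul_of_nonneg_left (hsum F) (by positivity)
      _ = _ := by rw [pow_add]; norm_num
  exact_mod_cast h8

lemma pow_bound {ζ : ℝ} {c : ℕ} (h0 : 0 < ζ) (hc : ζ ^ c ≤ 1 / 2) {N a j k : ℕ} (C : ℕ)
    (hN : N ≤ C * 2 ^ a) (hj : a + k ≤ j) : (N : ℝ) * ζ ^ (c * j) ≤ C * (1 / 2) ^ k := by
  have h1 : ζ ^ (c * j) ≤ (1 / 2) ^ (a + k) := by
    rw [pow_mul]
    exact (pow_le_pow_left₀ (by positivity) hc j).trans
      (pow_le_pow_of_le_one (by norm_num) (by norm_num) hj)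
  have h2 : (N : ℝ) ≤ C * 2 ^ a := by exact_mod_cast hN
  calc (N : ℝ) * ζ ^ (c * j) ≤ (C * 2 ^ a) * (1 / 2) ^ (a + k) :=
        mul_le_mul h2 h1 (by positivity) (by positivity)
    _ = C * (2 ^ a * (1 / 2) ^ a) * (1 / 2) ^ k := by rw [pow_add]; ring
    _ = _ := by rw [← mul_pow]; norm_num

lemma exists_ev {r : ℝ} {X : Set (EE n)} (hX : cont n r X ≠ 0) {p q : ℕ → EE n → Prop}
    (hp : cont n r {x | ∃ᶠ k in atTop, p k x} = 0) (hq : cont n r {x | ∃ᶠ k in atTop, q k x} = 0) :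
    ∃ x ∈ X, ∀ᶠ k in atTop, ¬ p k x ∧ ¬ q k x := by
  by_contra hc
  push Not at hc
  apply hX
  refine measure_mono_null (t := {x | ∃ᶠ k in atTop, p k x} ∪ {x | ∃ᶠ k in atTop, q k x}) ?_
    (measure_union_null hp hq)
  intro x hx
  have h1 := hc x hx
  by_contra h2
  simp only [mem_union, mem_setOf_eq, not_or, not_frequently] at h2
  exact h1 ((h2.1.and h2.2).mono fun k hk h => hk.2 (h hk.1))

theorem key {r s : ℝ} (hr : 0 < r) (hs : 0 < s) (hsn : s < n) (a : Fin n → ℤ) :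
    ∃ Φ : EE n → EE n → EE n, ∀ X : Set (EE n), X ⊆ cube a → cont n r X ≠ 0 →
      μH[s] (image2 Φ X X) ≠ 0 := by
  classical
  have hn : 1 ≤ n := by
    have : (0 : ℝ) < n := hs.trans hsn
    exact_mod_cast this
  set θ : ℝ := (1 / 2 : ℝ) ^ s with hθ
  set η : ℝ := (1 / 2 : ℝ) ^ (n - s) with hη
  set ζ : ℝ := (1 / 2 : ℝ) ^ r with hζ
  have hθ0 : 0 < θ := Real.rpow_pos_of_pos (by norm_num) _
  have hη0 : 0 < η := Real.rpow_pos_of_pos (by norm_num) _
  have hζ0 : 0 < ζ := Real.rpow_pos_of_pos (by norm_num) _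
  have hη1 : η < 1 := Real.rpow_lt_one (by norm_num) (by norm_num) (by linarith)
  have hζ1 : ζ < 1 := Real.rpow_lt_one (by norm_num) (by norm_num) hr
  have hθη : θ * η = (1 / 2) ^ n := by
    rw [hθ, hη, ← Real.rpow_add (by norm_num), ← Real.rpow_natCast]
    congr 1; ring
  obtain ⟨c, hc1, hηc, hζc⟩ : ∃ c : ℕ, 1 ≤ c ∧ η ^ c ≤ 1 / 2 ∧ ζ ^ c ≤ 1 / 2 := by
    obtain ⟨c1, h1⟩ := exists_pow_lt_of_lt_one (show (0 : ℝ) < 1 / 2 by norm_num) hη1
    obtain ⟨c2, h2⟩ := exists_pow_lt_of_lt_one (show (0 : ℝ) < 1 / 2 by norm_num) hζ1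
    refine ⟨c1 + c2 + 1, by omega, ?_, ?_⟩
    · exact (pow_le_pow_of_le_one hη0.le hη1.le (by omega)).trans h1.le
    · exact (pow_le_pow_of_le_one hζ0.le hζ1.le (by omega)).trans h2.le
  obtain ⟨lam, hlam⟩ : ∃ lam, lam = c * (16 * n) := ⟨_, rfl⟩
  have hlam16 : 16 ≤ lam := by rw [hlam]; nlinarith
  obtain ⟨P, hP⟩ : ∃ P : ℕ → ℕ, ∀ k, P k = lam ^ (k + 1) := ⟨_, fun _ => rfl⟩
  have hPs : ∀ k, P (k + 1) = c * (16 * n * P k) := fun k => by
    rw [hP, hP, pow_succ lam (k + 1)]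
    nth_rewrite 2 [hlam]
    ring
  have hPs' : ∀ k, P (k + 1) = lam * P k := fun k => by rw [hP, hP, pow_succ lam (k + 1)]; ring
  have hPk : ∀ k, k + 1 ≤ P k := fun k => by
    rw [hP]
    exact (Nat.lt_pow_self (by omega)).le
  have hPm : ∀ k, 16 * P k ≤ P (k + 1) := fun k => by
    rw [hPs']; exact Nat.mul_le_mul_right _ hlam16
  have hPlt : StrictMono P := strictMono_nat_of_lt_succ fun k => by
    have := hPm k; have := hPk k; omega
  let d : ℕ → ℕ := fun k => P (k + 2) - P (k + 1)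
  have hd : ∀ k, P (k + 1 + 1) = P (k + 1) + d k := fun k => by
    have := hPlt.monotone (show k + 1 ≤ k + 2 by omega)
    change P (k + 2) = P (k + 1) + (P (k + 2) - P (k + 1))
    omega
  have hcard : ∀ A : ℕ, Fintype.card (Fin n → Fin (2 ^ A)) = 2 ^ (n * A) := fun A => by
    rw [Fintype.card_fun, Fintype.card_fin, Fintype.card_fin, ← pow_mul, mul_comm]
  have hne : ∀ A : ℕ, Nonempty (Fin n → Fin (2 ^ A)) := fun A =>
    ⟨fun _ => ⟨0, by positivity⟩⟩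
  let L : ℕ → ℕ := fun k => n * P (k + 3) + 2
  have hE : ∀ k, ∃ E : (Fin n → Fin (2 ^ P (k + 3))) → (Fin n → Fin (2 ^ P k)) →
      (Fin n → Fin (2 ^ d k)), ∀ S : Finset (Fin n → Fin (2 ^ d k)),
      2 * (Fintype.card (Fin n → Fin (2 ^ P k)) * S.card) ≤ Fintype.card (Fin n → Fin (2 ^ d k)) →
      (Finset.univ.filter fun l => L k ≤ (Finset.univ.filter fun z => E l z ∈ S).card).card <
        Fintype.card (Fin n → Fin (2 ^ d k)) := fun k =>
    haveI := hne (d k)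
    sampler _ _ _ (L k) (by rw [hcard]; simp only [L]; rw [pow_add]; omega)
  choose E hE using hE
  let u : EE n → EE n → ∀ k, Fin n → Fin (2 ^ d k) := fun x x' k =>
    E k (idx (P (k + 3)) x) (idx (P k) x')
  have hy : ∀ (x x' : EE n) (i : Fin n), ∃ y : ℝ, ∀ k,
      |y * 2 ^ P (k + 1) - NN d (fun k => (u x x' k i).val) k| ≤ 1 := fun x x' i =>
    exists_lim (fun k => P (k + 1)) d _ hd (fun k => (u x x' k i).2)
  choose yy hyy using hy
  refine ⟨fun x x' => WithLp.toLp 2 (yy x x'), fun X hXa hX hY => ?_⟩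
  obtain ⟨t, m, ht, hsum, hcov⟩ := cover hs hY
  let S := fun k => Sk (d k) (d (k + 1)) (P (k + 2)) (P (k + 3)) t m
  have hH : ∀ k, ∃ H : Finset (Fin n → Fin (2 ^ d k)),
      2 * (Fintype.card (Fin n → Fin (2 ^ P k)) * H.card) ≤
        Fintype.card (Fin n → Fin (2 ^ d k)) ∧
      ∀ g : (Fin n → Fin (2 ^ P k)) → (Fin n → Fin (2 ^ d k)),
        ∃ T : Finset (Fin n → Fin (2 ^ d (k + 1))),
          2 * (Fintype.card (Fin n → Fin (2 ^ P (k + 1))) * T.card) ≤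
            Fintype.card (Fin n → Fin (2 ^ d (k + 1))) ∧
          ∀ z v, g z ∉ H → (g z, v) ∈ S k → v ∈ T := by
    intro k
    haveI := hne (d (k + 1))
    haveI := hne (P (k + 1))
    refine heavy (S k) (2 ^ (5 * (n * P (k + 1)))) ?_ ?_ (by positivity)
    · have h1 := card_Sk (d k) (d (k + 1)) (P (k + 2)) (P (k + 3)) c (16 * n * P (k + 1)) t m hθ0
        hη0 hη1.le hηc hθη (le_of_eq (hPs (k + 1)).symm) ht hsum
      rw [hcard, hcard, ← pow_add, ← pow_add]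
      have h2 : 0 < 2 ^ (6 * (n * P (k + 1))) := by positivity
      refine Nat.le_of_mul_le_mul_right ?_ h2
      rw [mul_assoc, ← pow_add, ← pow_add]
      have h3 : 5 * (n * P (k + 1)) + 5 * (n * P (k + 1)) + 6 * (n * P (k + 1)) =
          16 * n * P (k + 1) := by ring
      rw [h3]
      refine h1.trans (Nat.pow_le_pow_right (by norm_num) ?_)
      have e1 := hd k
      have e2 := hd (k + 1)
      have e3 : P (k + 3) = P (k + 1) + d k + d (k + 1) := by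
        change P (k + 1 + 1 + 1) = _
        omega
      have e4 : 2 ≤ P (k + 1) := by have := hPk (k + 1); omega
      rw [e3]
      nlinarith [Nat.mul_le_mul_left n e4]
    · rw [hcard, hcard, ← pow_add, ← pow_succ']
      refine Nat.pow_le_pow_right (by norm_num) ?_
      have e1 := Nat.mul_le_mul_left n (hPlt.monotone (show k ≤ k + 1 by omega))
      have e4 : 1 ≤ n * P (k + 1) := by have := hPk (k + 1); nlinarith
      omega
  choose H hH T hT hT' using hH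
  let F1 : ∀ k, Finset (Fin n → Fin (2 ^ P (k + 3))) := fun k =>
    Finset.univ.filter fun l => L k ≤ (Finset.univ.filter fun z => E k l z ∈ H k).card
  let G2 : ∀ k, (Fin n → Fin (2 ^ P (k + 3))) → Finset (Fin n → Fin (2 ^ P (k + 1 + 3))) :=
    fun k p => Finset.univ.filter fun l =>
      L (k + 1) ≤ (Finset.univ.filter fun z => E (k + 1) l z ∈ T k (E k p)).card
  let F2 : ∀ k, Finset (Fin n → Fin (2 ^ P (k + 1 + 3))) := fun k => Finset.univ.biUnion (G2 k)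
  have hdle : ∀ k, d k ≤ P (k + 2) := fun k => Nat.sub_le _ _
  have hF1 : ∀ k, ((F1 k).card : ℝ) * ζ ^ P (k + 3) ≤ (1 : ℕ) * (1 / 2) ^ k := by
    intro k
    have h1 := (hE k (H k) (hH k)).le
    rw [hcard] at h1
    have h0 : ζ ^ P (k + 3) = ζ ^ (c * (16 * n * P (k + 2))) := by rw [← hPs (k + 2)]
    rw [h0]
    refine pow_bound hζ0 hζc 1 (a := n * d k) (by simpa using h1) ?_
    have e1 := Nat.mul_le_mul_left n (hdle k)
    have e2 := hPk (k + 2)
    nlinarith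
  have hF2 : ∀ k, ((F2 k).card : ℝ) * ζ ^ P (k + 1 + 3) ≤ (1 : ℕ) * (1 / 2) ^ k := by
    intro k
    have h1 : (F2 k).card ≤ 2 ^ (n * P (k + 3)) * 2 ^ (n * d (k + 1)) := by
      refine Finset.card_biUnion_le.trans ?_
      rw [← hcard, ← hcard, ← smul_eq_mul, ← Finset.card_univ]
      exact Finset.sum_le_card_nsmul _ _ _ fun p _ => (hE (k + 1) _ (hT k (E k p))).le
    have h0 : ζ ^ P (k + 1 + 3) = ζ ^ (c * (16 * n * P (k + 3))) := by rw [← hPs (k + 3)]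
    rw [h0]
    refine pow_bound hζ0 hζc 1 (a := n * P (k + 3) + n * d (k + 1))
      (by rw [pow_add, one_mul]; exact h1) ?_
    have e1 : n * d (k + 1) ≤ n * P (k + 3) := Nat.mul_le_mul_left n (hdle (k + 1))
    have e2 := hPk (k + 3)
    nlinarith
  obtain ⟨x, hxX, hx⟩ := exists_ev hX (small hr a (fun k => P (k + 3)) F1 _ hF1)
    (small hr a (fun k => P (k + 1 + 3)) F2 _ hF2)
  let B1 : ∀ k, Finset (Fin n → Fin (2 ^ P k)) := fun k =>
    Finset.univ.filter fun z => E k (idx (P (k + 3)) x) z ∈ H k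
  let B2 : ∀ k, Finset (Fin n → Fin (2 ^ P (k + 1))) := fun k =>
    Finset.univ.filter fun z =>
      E (k + 1) (idx (P (k + 1 + 3)) x) z ∈ T k (E k (idx (P (k + 3)) x))
  have hL : ∀ k j N : ℕ, j ≤ k → N ≤ L k → (N : ℝ) * ζ ^ P k ≤
      (3 * n * lam ^ 4 : ℕ) * (1 / 2) ^ j := by
    intro k j N hj hN
    have h0 : P k = c * (16 * n * lam ^ k) := by
      rw [hP, pow_succ]
      nth_rewrite 2 [hlam]
      ring
    have h1 : k < lam ^ k := Nat.lt_pow_self (by omega)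
    have h2 : lam ^ k ≤ 2 ^ (lam ^ k) := Nat.lt_two_pow_self.le
    rw [h0]
    refine pow_bound hζ0 hζc _ (a := lam ^ k) (hN.trans ?_) (by nlinarith)
    simp only [L]
    rw [hP]
    have h3 : lam ^ (k + 3 + 1) = lam ^ 4 * lam ^ k := by rw [← pow_add]; congr 1; omega
    have h4 : 1 ≤ n * (lam ^ 4 * lam ^ k) := Nat.mul_pos hn (by positivity)
    calc n * lam ^ (k + 3 + 1) + 2 ≤ 3 * n * lam ^ 4 * lam ^ k := by rw [h3]; nlinarith
      _ ≤ _ := Nat.mul_le_mul_left _ h2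
  obtain ⟨x', hxX', hx'⟩ := exists_ev hX
    (small hr a P (fun k => if (B1 k).card < L k then B1 k else ∅) _ (fun k =>
      hL k k _ le_rfl (by split_ifs with h; exacts [h.le, by simp])))
    (small hr a (fun k => P (k + 1)) (fun k => if (B2 k).card < L (k + 1) then B2 k else ∅) _
      (fun k => hL (k + 1) k _ (by omega) (by split_ifs with h; exacts [h.le, by simp])))
  obtain ⟨K, hK⟩ := eventually_atTop.1 (hx.and hx')
  obtain ⟨q, hq, hqm⟩ := hcov _ (mem_image2_of_mem hxX hxX') (P (K + 2))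
  have hex : ∃ k, m q < P (k + 3) := ⟨m q, by have := hPk (m q + 3); omega⟩
  obtain ⟨k, hk1, hk2, hk3⟩ : ∃ k, K ≤ k ∧ P (k + 2) ≤ m q ∧ m q ≤ P (k + 3) := by
    have h1 := Nat.find_spec hex
    have h2 : K ≤ Nat.find hex := by
      have := hPlt.lt_iff_lt.1 (lt_of_le_of_lt hqm h1)
      omega
    refine ⟨Nat.find hex, h2, ?_, h1.le⟩
    rcases Nat.eq_or_lt_of_le h2 with h3 | h3
    · rw [← h3]; exact hqm
    · have h4 := Nat.find_min hex (show Nat.find hex - 1 < Nat.find hex by omega)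
      have h5 : Nat.find hex - 1 + 3 = Nat.find hex + 2 := by omega
      rw [h5] at h4
      omega
  obtain ⟨⟨a1, a2⟩, a3, a4⟩ := hK k hk1
  have b1 : (B1 k).card < L k := by
    by_contra hc
    exact a1 ⟨hXa hxX, Finset.mem_filter.2 ⟨Finset.mem_univ _, not_lt.1 hc⟩⟩
  have b2 : (B2 k).card < L (k + 1) := by
    by_contra hc
    exact a2 ⟨hXa hxX, Finset.mem_biUnion.2 ⟨idx (P (k + 3)) x, Finset.mem_univ _,
      Finset.mem_filter.2 ⟨Finset.mem_univ _, not_lt.1 hc⟩⟩⟩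
  rw [if_pos b1] at a3
  rw [if_pos b2] at a4
  apply a4
  refine ⟨hXa hxX', Finset.mem_filter.2 ⟨Finset.mem_univ _, ?_⟩⟩
  refine hT' k _ (idx (P k) x') _ (fun h => a3 ⟨hXa hxX', Finset.mem_filter.2
    ⟨Finset.mem_univ _, h⟩⟩) ?_
  refine mem_Sk.2 ⟨q, hk2, hk3, mem_Sq.2 ⟨_, hq, fun i => NN d (fun k => (u x x' k i).val) k,
    fun i => ?_⟩⟩
  exact hyy x x' i (k + 2)

theorem exists_small {r s : ℝ} (hr : 0 < r) (hs : 0 < s) (hsn : s < n) {X : Set (EE n)}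
    (hX : μH[r] X ≠ 0) : ∃ Y : Set (EE n), μH[s] Y ≠ 0 ∧ Cardinal.mk Y ≤ Cardinal.mk X := by
  obtain ⟨a, ha⟩ : ∃ a : Fin n → ℤ, μH[r] (X ∩ cube a) ≠ 0 := by
    by_contra hc
    push Not at hc
    apply hX
    refine measure_mono_null (t := ⋃ a : Fin n → ℤ, X ∩ cube a) ?_ (measure_iUnion_null hc)
    intro x hx
    exact mem_iUnion.2 ⟨fun i => ⌊x i⌋, hx, fun _ => rfl⟩
  obtain ⟨Φ, hΦ⟩ := key hr hs hsn a
  refine ⟨_, hΦ (X ∩ cube a) inter_subset_right (fun h => ha (null_of_cont hr h)), ?_⟩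
  have hinf : (X ∩ cube a).Infinite := by
    intro hfin
    haveI := Measure.nullSingletonClass_hausdorff (EE n) hr
    exact ha (hfin.measure_zero _)
  have h1 : Cardinal.aleph0 ≤ Cardinal.mk (X ∩ cube a : Set (EE n)) :=
    Cardinal.infinite_iff.1 hinf.to_subtype
  refine Cardinal.mk_image2_le.trans ?_
  rw [Cardinal.mul_eq_self h1]
  exact Cardinal.mk_le_mk_of_subset inter_subset_left

end Pool.Agent.H720Z.Non
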