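import Mathlib

set_option maxHeartbeats 400000

namespace Pool.Agent.H720Z.Non

open Finset

lemma card_many {I Ω : Type} [Fintype I] [DecidableEq I] [Fintype Ω] [DecidableEq Ω]
    (T : Finset Ω) (R : ℕ) :
    (univ.filter fun f : I → Ω => R ≤ (univ.filter fun i => f i ∈ T).card).card *
      Fintype.card Ω ^ R ≤ (Fintype.card I * T.card) ^ R * Fintype.card Ω ^ Fintype.card I := by
  by_cases hR : R ≤ Fintype.card I
  swap
  · have : (univ.filter fun f : I → Ω => R ≤ (univ.filter fun i => f i ∈ T).card) = ∅ := by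
      rw [eq_empty_iff_forall_notMem]
      intro f hf
      have h1 := (mem_filter.1 hf).2
      have h2 := card_le_univ (univ.filter fun i => f i ∈ T)
      omega
    rw [this]; simp
  have hsub : (univ.filter fun f : I → Ω => R ≤ (univ.filter fun i => f i ∈ T).card) ⊆
      (powersetCard R (univ : Finset I)).biUnion
        fun J => Fintype.piFinset fun i => if i ∈ J then T else univ := by
    intro f hf
    obtain ⟨J, hJ, hc⟩ := exists_subset_card_eq (mem_filter.1 hf).2
    refine mem_biUnion.2 ⟨J, mem_powersetCard.2 ⟨subset_univ _, hc⟩, ?_⟩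
    rw [Fintype.mem_piFinset]
    intro i
    split_ifs with hi
    · exact (mem_filter.1 (hJ hi)).2
    · exact mem_univ _
  have h1 : ∀ J ∈ powersetCard R (univ : Finset I),
      (Fintype.piFinset fun i => if i ∈ J then T else (univ : Finset Ω)).card =
        T.card ^ R * Fintype.card Ω ^ (Fintype.card I - R) := by
    intro J hJ
    have hc := (mem_powersetCard.1 hJ).2
    rw [Fintype.card_piFinset]
    simp_rw [apply_ite Finset.card]
    rw [prod_ite, prod_const, prod_const, card_univ]
    have e1 : (univ.filter fun i => i ∈ J) = J := by ext; simp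
    have e2 : (univ.filter fun i => ¬ i ∈ J) = Jᶜ := by ext; simp
    rw [e1, e2, card_compl, hc]
  have h2 := (card_le_card hsub).trans card_biUnion_le
  rw [sum_congr rfl h1, sum_const, card_powersetCard, card_univ, smul_eq_mul] at h2
  have h3 : (Fintype.card I).choose R ≤ Fintype.card I ^ R := Nat.choose_le_pow _ _
  have h4 : Fintype.card Ω ^ (Fintype.card I - R) * Fintype.card Ω ^ R =
      Fintype.card Ω ^ Fintype.card I := by
    rw [← pow_add]; congr 1; omega
  calc _ ≤ (Fintype.card I ^ R * (T.card ^ R * Fintype.card Ω ^ (Fintype.card I - R))) *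
        Fintype.card Ω ^ R :=
        Nat.mul_le_mul_right _ (h2.trans (Nat.mul_le_mul_right _ h3))
    _ = _ := by rw [mul_pow, ← h4]; ring

lemma card_many' {I Ω : Type} [Fintype I] [DecidableEq I] [Fintype Ω] [DecidableEq Ω]
    [Nonempty Ω] (T : Finset Ω) (R b : ℕ) (h : b * (Fintype.card I * T.card) ≤ Fintype.card Ω) :
    b ^ R * (univ.filter fun f : I → Ω => R ≤ (univ.filter fun i => f i ∈ T).card).card ≤
      Fintype.card (I → Ω) := by
  have h1 := card_many (I := I) T R
  have h2 : 0 < Fintype.card Ω ^ R := pow_pos Fintype.card_pos _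
  rw [Fintype.card_fun]
  refine Nat.le_of_mul_le_mul_right ?_ h2
  calc _ = b ^ R * ((univ.filter fun f : I → Ω =>
        R ≤ (univ.filter fun i => f i ∈ T).card).card * Fintype.card Ω ^ R) := by ring
    _ ≤ b ^ R * ((Fintype.card I * T.card) ^ R * Fintype.card Ω ^ Fintype.card I) :=
        Nat.mul_le_mul_left _ h1
    _ = (b * (Fintype.card I * T.card)) ^ R * Fintype.card Ω ^ Fintype.card I := by
        rw [mul_pow b]; ring
    _ ≤ Fintype.card Ω ^ R * Fintype.card Ω ^ Fintype.card I :=
        Nat.mul_le_mul_right _ (Nat.pow_le_pow_left h _)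
    _ = _ := by ring

lemma sampler (Λ Z U : Type) [Fintype Λ] [DecidableEq Λ] [Fintype Z] [DecidableEq Z] [Fintype U]
    [DecidableEq U] [Nonempty U] (L : ℕ) (hL : 4 * Fintype.card Λ ≤ 2 ^ L) :
    ∃ E : Λ → Z → U, ∀ S : Finset U, 2 * (Fintype.card Z * S.card) ≤ Fintype.card U →
      (univ.filter fun l => L ≤ (univ.filter fun z => E l z ∈ S).card).card < Fintype.card U := by
  set R := Fintype.card U with hR
  have hR0 : 0 < R := Fintype.card_pos
  let Rich : Finset U → Finset (Z → U) := fun S =>
    univ.filter fun g => L ≤ (univ.filter fun z => g z ∈ S).card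
  let Bad : Finset U → Finset (Λ → Z → U) := fun S =>
    univ.filter fun E => R ≤ (univ.filter fun l => E l ∈ Rich S).card
  let Gd : Finset (Finset U) := univ.filter fun S => 2 * (Fintype.card Z * S.card) ≤ R
  have hB : ∀ S ∈ Gd, 4 ^ R * (Bad S).card ≤ Fintype.card (Λ → Z → U) := by
    intro S hS
    have h1 := card_many' (I := Z) S L 2 (mem_filter.1 hS).2
    refine card_many' (I := Λ) (Rich S) R 4 ?_
    calc 4 * (Fintype.card Λ * (Rich S).card) = (4 * Fintype.card Λ) * (Rich S).card := by ring
      _ ≤ 2 ^ L * (Rich S).card := Nat.mul_le_mul_right _ hL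
      _ ≤ _ := h1
  have hlt : (Gd.biUnion Bad).card < Fintype.card (Λ → Z → U) := by
    have h0 : 0 < Fintype.card (Λ → Z → U) := Fintype.card_pos
    have h1 : 4 ^ R * (Gd.biUnion Bad).card ≤ 2 ^ R * Fintype.card (Λ → Z → U) := by
      calc 4 ^ R * (Gd.biUnion Bad).card ≤ 4 ^ R * ∑ S ∈ Gd, (Bad S).card :=
            Nat.mul_le_mul_left _ card_biUnion_le
        _ = ∑ S ∈ Gd, 4 ^ R * (Bad S).card := by rw [mul_sum]
        _ ≤ ∑ _S ∈ Gd, Fintype.card (Λ → Z → U) := sum_le_sum hB
        _ = Gd.card * Fintype.card (Λ → Z → U) := by rw [sum_const, smul_eq_mul]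
        _ ≤ _ := by
            apply Nat.mul_le_mul_right
            have := card_le_univ Gd
            rwa [Fintype.card_finset] at this
    have h2 : 2 ^ R < 4 ^ R := Nat.pow_lt_pow_left (by norm_num) hR0.ne'
    by_contra hc
    have h3 : 4 ^ R * Fintype.card (Λ → Z → U) ≤ 4 ^ R * (Gd.biUnion Bad).card :=
      Nat.mul_le_mul_left _ (not_lt.1 hc)
    have h4 := Nat.mul_lt_mul_of_pos_right h2 h0
    omega
  obtain ⟨E, hE⟩ : ∃ E, E ∉ Gd.biUnion Bad := by
    by_contra hc
    push Not at hc
    have : Gd.biUnion Bad = univ := eq_univ_of_forall hc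
    rw [this, card_univ] at hlt
    exact lt_irrefl _ hlt
  refine ⟨E, fun S hS => ?_⟩
  by_contra hc
  apply hE
  refine mem_biUnion.2 ⟨S, mem_filter.2 ⟨mem_univ _, hS⟩, mem_filter.2 ⟨mem_univ _, ?_⟩⟩
  refine (not_lt.1 hc).trans (le_of_eq ?_)
  congr 1
  ext l
  simp [Rich]

lemma heavy {U U' Z Z' : Type} [Fintype U] [DecidableEq U] [Fintype U'] [DecidableEq U']
    [Fintype Z] [Fintype Z'] [Nonempty U'] [Nonempty Z'] (S : Finset (U × U')) (M : ℕ)
    (hS : S.card * (M * M) ≤ Fintype.card U * Fintype.card U')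
    (hM : 2 * (Fintype.card Z * Fintype.card Z') ≤ M) (hM0 : 0 < M) :
    ∃ H : Finset U, 2 * (Fintype.card Z * H.card) ≤ Fintype.card U ∧
      ∀ g : Z → U, ∃ T : Finset U', 2 * (Fintype.card Z' * T.card) ≤ Fintype.card U' ∧
        ∀ z v, g z ∉ H → (g z, v) ∈ S → v ∈ T := by
  classical
  let fib : U → Finset U' := fun u => univ.filter fun v => (u, v) ∈ S
  let H : Finset U := univ.filter fun u => Fintype.card U' < M * (fib u).card
  have hsum : ∑ u, (fib u).card = S.card := by
    rw [card_eq_sum_card_fiberwise (f := Prod.fst) (s := S) (t := univ) (fun _ _ => mem_univ _)]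
    refine sum_congr rfl fun u _ => ?_
    refine card_bij (fun v _ => (u, v)) ?_ ?_ ?_
    · intro v hv
      exact mem_filter.2 ⟨(mem_filter.1 hv).2, rfl⟩
    · intro v _ v' _ e
      exact (Prod.mk.inj e).2
    · rintro ⟨u', v⟩ h
      obtain ⟨h1, h2⟩ := mem_filter.1 h
      dsimp only at h2
      subst h2
      exact ⟨v, mem_filter.2 ⟨mem_univ _, h1⟩, rfl⟩
  have hH : H.card * Fintype.card U' ≤ M * S.card := by
    calc H.card * Fintype.card U' = ∑ _u ∈ H, Fintype.card U' := by rw [sum_const, smul_eq_mul]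
      _ ≤ ∑ u ∈ H, M * (fib u).card := sum_le_sum fun u hu => (mem_filter.1 hu).2.le
      _ ≤ ∑ u, M * (fib u).card := sum_le_sum_of_subset (subset_univ _)
      _ = _ := by rw [← mul_sum, hsum]
  have hU' : 0 < Fintype.card U' := Fintype.card_pos
  have hZ' : 0 < Fintype.card Z' := Fintype.card_pos
  have hH2 : M * H.card ≤ Fintype.card U := by
    refine Nat.le_of_mul_le_mul_right ?_ hU'
    calc M * H.card * Fintype.card U' = M * (H.card * Fintype.card U') := by ring
      _ ≤ M * (M * S.card) := Nat.mul_le_mul_left _ hH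
      _ = S.card * (M * M) := by ring
      _ ≤ _ := hS
  refine ⟨H, ?_, fun g => ⟨(univ.filter fun z => g z ∉ H).biUnion fun z => fib (g z), ?_, ?_⟩⟩
  · calc 2 * (Fintype.card Z * H.card) = (2 * (Fintype.card Z * 1)) * H.card := by ring
      _ ≤ (2 * (Fintype.card Z * Fintype.card Z')) * H.card :=
          Nat.mul_le_mul_right _ (Nat.mul_le_mul_left _ (Nat.mul_le_mul_left _ hZ'))
      _ ≤ M * H.card := Nat.mul_le_mul_right _ hM
      _ ≤ _ := hH2
  · set T := (univ.filter fun z => g z ∉ H).biUnion fun z => fib (g z) with hT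
    have h1 : M * T.card ≤ Fintype.card Z * Fintype.card U' := by
      calc M * T.card ≤ M * ∑ z ∈ univ.filter (fun z => g z ∉ H), (fib (g z)).card :=
            Nat.mul_le_mul_left _ card_biUnion_le
        _ = ∑ z ∈ univ.filter (fun z => g z ∉ H), M * (fib (g z)).card := by rw [mul_sum]
        _ ≤ ∑ _z ∈ univ.filter (fun z => g z ∉ H), Fintype.card U' := by
            refine sum_le_sum fun z hz => ?_
            have := (mem_filter.1 hz).2
            simp only [H, mem_filter, mem_univ, true_and, not_lt] at this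
            exact this
        _ ≤ ∑ _z : Z, Fintype.card U' := sum_le_sum_of_subset (subset_univ _)
        _ = _ := by rw [sum_const, smul_eq_mul, card_univ]
    refine Nat.le_of_mul_le_mul_left ?_ hM0
    calc M * (2 * (Fintype.card Z' * T.card)) = 2 * Fintype.card Z' * (M * T.card) := by ring
      _ ≤ 2 * Fintype.card Z' * (Fintype.card Z * Fintype.card U') := Nat.mul_le_mul_left _ h1
      _ = (2 * (Fintype.card Z * Fintype.card Z')) * Fintype.card U' := by ring
      _ ≤ _ := Nat.mul_le_mul_right _ hM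
  · intro z v h1 h2
    exact mem_biUnion.2 ⟨z, mem_filter.2 ⟨mem_univ _, h1⟩, mem_filter.2 ⟨mem_univ _, h2⟩⟩

end Pool.Agent.H720Z.Non
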